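import Pool.Agent.W951.BP.Stm

/-! Project BP (helper951), part EMB (helper822): encoding by `k`-CNF formulas. -/

namespace Pool.Agent.W822.BP

open Finset Classical
open Pool.Agent.W951.BP Pool.Agent.H596R2.D3

/-- Variables: one-hot positions, chain variables, one-hot digits. -/
abbrev V3 (T v k M : ℕ) : Type :=
  (Fin T × Fin v) ⊕ (Fin T × Fin (v + 1)) ⊕ (Fin M × Fin k × Fin v)

/-- Position clauses. -/
noncomputable def cl3 (T v k M : ℕ) (q : Fin M × (Fin k → Fin v)) : Finset (V3 T v k M × Bool) :=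
  univ.image (fun t : Fin k => ((Sum.inr (Sum.inr (q.1, t, q.2 t)) : V3 T v k M), false))

/-- Fixed clauses. -/
def fx3 (T v k M : ℕ) (β : Fin M → Fin k → (Fin T × Fin T) × (Fin v → Fin v → Fin v)) :
    Set (Finset (V3 T v k M × Bool)) :=
  {c | (∃ j : Fin T, c = {(Sum.inr (Sum.inl (j, 0)), true)}) ∨
    (∃ (j : Fin T) (d : Fin v), c = {(Sum.inr (Sum.inl (j, d.castSucc)), false),
        (Sum.inl (j, d), true), (Sum.inr (Sum.inl (j, d.succ)), true)}) ∨
    (∃ j : Fin T, c = {(Sum.inr (Sum.inl (j, Fin.last v)), false)}) ∨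
    ∃ (i : Fin M) (t : Fin k) (al be : Fin v),
      c = {(Sum.inl ((β i t).1.1, al), false), (Sum.inl ((β i t).1.2, be), false),
        (Sum.inr (Sum.inr (i, t, (β i t).2 al be)), true)}}

theorem cl3_inj (T v k M : ℕ) (hk : 1 ≤ k) : Function.Injective (cl3 T v k M) := by
  rintro ⟨i, d⟩ ⟨i', d'⟩ h
  have hmem : ∀ t : Fin k, i = i' ∧ d t = d' t := by
    intro t
    have h1 : ((Sum.inr (Sum.inr (i, t, d t)) : V3 T v k M), false) ∈ cl3 T v k M (i', d') := by
      rw [← h]
      unfold cl3
      exact mem_image.mpr ⟨t, mem_univ _, rfl⟩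
    unfold cl3 at h1
    obtain ⟨t', _, ht'⟩ := mem_image.mp h1
    have h2 := (Prod.mk.inj ht').1
    simp only [Sum.inr.injEq, Prod.mk.injEq] at h2
    obtain ⟨h3, h4, h5⟩ := h2
    subst h4
    exact ⟨h3.symm, h5.symm⟩
  rw [(hmem ⟨0, by omega⟩).1, funext fun t => (hmem t).2]

theorem t_EMB : Pool.Agent.W951.BP.S_EMB := by
  intro n T v k M hk hv hn β
  have hcard : Fintype.card (V3 T v k M) ≤ Fintype.card (Fin n) := by
    simp only [Fintype.card_sum, Fintype.card_prod, Fintype.card_fin]
    rw [← mul_assoc]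
    exact hn
  obtain ⟨f⟩ := Function.Embedding.nonempty_of_card_le hcard
  obtain ⟨X, hX, hsem⟩ := embed (k := k) f f.injective (fx3 T v k M β) (cl3 T v k M)
    (by
      rintro c (⟨j, rfl⟩ | ⟨j, d, rfl⟩ | ⟨j, rfl⟩ | ⟨i, t, al, be, rfl⟩)
      · rw [card_singleton]; omega
      · exact card_le_three.trans (by omega)
      · rw [card_singleton]; omega
      · exact card_le_three.trans (by omega))
    (fun q => by
      unfold cl3
      refine card_image_le.trans ?_
      rw [card_univ, Fintype.card_fin])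
    (cl3_inj T v k M (by omega)) true
  refine ⟨X, hX, ?_⟩
  intro w
  rw [hsem]
  constructor
  · rintro ⟨x, hx1, hx2⟩
    have hdig : ∀ j : Fin T, ∃ d : Fin v, x (Sum.inl (j, d)) = true := by
      intro j
      apply chain (fun d => x (Sum.inl (j, d))) (fun d => x (Sum.inr (Sum.inl (j, d))))
      · obtain ⟨l, hl, hxl⟩ := hx1 _ (Or.inl ⟨j, rfl⟩)
        rw [mem_singleton.mp hl] at hxl
        exact hxl
      · intro d
        obtain ⟨l, hl, hxl⟩ := hx1 _ (Or.inr (Or.inl ⟨j, d, rfl⟩))
        simp only [mem_insert, mem_singleton] at hl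
        rcases hl with rfl | rfl | rfl
        · exact Or.inl hxl
        · exact Or.inr (Or.inl hxl)
        · exact Or.inr (Or.inr hxl)
      · obtain ⟨l, hl, hxl⟩ := hx1 _ (Or.inr (Or.inr (Or.inl ⟨j, rfl⟩)))
        rw [mem_singleton.mp hl] at hxl
        exact hxl
    choose J hJ using hdig
    refine ⟨J, fun i => ?_⟩
    by_contra hw
    have hw' : w (i, digit (β i) J) = false := by simpa using hw
    obtain ⟨l, hl, hxl⟩ := hx2 (i, digit (β i) J) (by rw [hw']; rfl)
    unfold cl3 at hl
    obtain ⟨t, _, rfl⟩ := mem_image.mp hl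
    obtain ⟨l', hl', hxl'⟩ := hx1 _ (Or.inr (Or.inr (Or.inr
      ⟨i, t, J (β i t).1.1, J (β i t).1.2, rfl⟩)))
    simp only [mem_insert, mem_singleton] at hl'
    rcases hl' with rfl | rfl | rfl
    · simp only at hxl'
      rw [hJ] at hxl'
      exact absurd hxl' (by simp)
    · simp only at hxl'
      rw [hJ] at hxl'
      exact absurd hxl' (by simp)
    · simp only at hxl hxl'
      unfold digit at hxl
      rw [hxl'] at hxl
      exact absurd hxl (by simp)
  · rintro ⟨J, hJ⟩
    refine ⟨fun v => match v with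
      | Sum.inl (j, d) => decide (d = J j)
      | Sum.inr (Sum.inl (j, d)) => decide (d.val ≤ (J j).val)
      | Sum.inr (Sum.inr (i, t, e)) => decide (e = digit (β i) J t), ?_, ?_⟩
    · rintro c (⟨j, rfl⟩ | ⟨j, d, rfl⟩ | ⟨j, rfl⟩ | ⟨i, t, al, be, rfl⟩)
      · exact ⟨_, mem_singleton_self _, by simp⟩
      · by_cases h1 : d.val ≤ (J j).val
        · by_cases h2 : d = J j
          · exact ⟨(Sum.inl (j, d), true), by simp, by simp only [decide_eq_true_eq]; exact h2⟩
          · refine ⟨(Sum.inr (Sum.inl (j, d.succ)), true), by simp, ?_⟩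
            simp only [decide_eq_true_eq, Fin.val_succ]
            have : d.val ≠ (J j).val := fun h => h2 (Fin.ext h)
            omega
        · refine ⟨(Sum.inr (Sum.inl (j, d.castSucc)), false), by simp, ?_⟩
          simp only [decide_eq_false_iff_not, Fin.val_castSucc]
          exact h1
      · refine ⟨_, mem_singleton_self _, ?_⟩
        simp only [decide_eq_false_iff_not, Fin.val_last, not_le]
        exact (J j).isLt
      · by_cases h1 : al = J (β i t).1.1
        · by_cases h2 : be = J (β i t).1.2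
          · refine ⟨(Sum.inr (Sum.inr (i, t, (β i t).2 al be)), true), by simp, ?_⟩
            simp only [decide_eq_true_eq]
            rw [h1, h2]
            rfl
          · exact ⟨(Sum.inl ((β i t).1.2, be), false), by simp, by simp [h2]⟩
        · exact ⟨(Sum.inl ((β i t).1.1, al), false), by simp, by simp [h1]⟩
    · rintro ⟨i, d⟩ hq
      have hw : w (i, d) = false := by
        cases hh : w (i, d) <;> simp_all
      have hne : d ≠ digit (β i) J := by
        rintro rfl
        rw [hJ i] at hw
        exact absurd hw (by simp)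
      obtain ⟨t, ht⟩ := Function.ne_iff.mp hne
      refine ⟨_, mem_image.mpr ⟨t, mem_univ _, rfl⟩, ?_⟩
      simp only [decide_eq_false_iff_not]
      exact ht

end Pool.Agent.W822.BP
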